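import Pool.Agent.H62.Ex5

set_option autoImplicit false

namespace Pool.Agent.Results.MP_4b3c04_lc.Counter

open FirstOrder FirstOrder.Language Cardinal Set

variable (L : FirstOrder.Language.{0, 0}) {N : Type} [L.Structure N]

/-- the sequence of `k`-tuples `b` is indiscernible over `A` -/
def Indisc (A : Set N) {k : ℕ} (b : ℕ → Fin k → N) : Prop :=
  ∀ (n m : ℕ) (φ : L.Formula ((Fin n × Fin k) ⊕ Fin m)) (a : Fin m → N), (∀ l, a l ∈ A) →
    ∀ i j : Fin n → ℕ, StrictMono i → StrictMono j →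
      (φ.Realize (Sum.elim (fun z => b (i z.1) z.2) a) ↔
        φ.Realize (Sum.elim (fun z => b (j z.1) z.2) a))

/-- `φ(x; b)` divides over `A` -/
def Divides (A : Set N) {m k : ℕ} (φ : L.Formula (Fin m ⊕ Fin k)) (b : Fin k → N) : Prop :=
  ∃ c : ℕ → Fin k → N, c 0 = b ∧ Indisc L A c ∧
    ∃ s : Finset ℕ, ¬∃ x : Fin m → N, ∀ i ∈ s, φ.Realize (Sum.elim x (c i))

/-- `φ(x; b)` forks over `A` -/
def Forks (A : Set N) {m k : ℕ} (φ : L.Formula (Fin m ⊕ Fin k)) (b : Fin k → N) : Prop :=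
  ∃ (n : ℕ) (r : Fin n → ℕ) (ψ : ∀ j, L.Formula (Fin m ⊕ Fin (r j))) (c : ∀ j, Fin (r j) → N),
    (∀ j, Divides L A (ψ j) (c j)) ∧
      ∀ x : Fin m → N, φ.Realize (Sum.elim x b) → ∃ j, (ψ j).Realize (Sum.elim x (c j))

/-- the complete type of `a` over `A` contains a formula that forks over `A` -/
def TypeForks (A : Set N) {m : ℕ} (a : Fin m → N) : Prop :=
  ∃ (k : ℕ) (φ : L.Formula (Fin m ⊕ Fin k)) (b : Fin k → N), (∀ l, b l ∈ A) ∧
    φ.Realize (Sum.elim a b) ∧ Forks L A φ b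

variable (N) in
/-- the strict order property, witnessed in `N` -/
def SOP : Prop :=
  ∃ (m k : ℕ) (φ : L.Formula (Fin m ⊕ Fin k)) (b : ℕ → Fin k → N), ∀ i,
    {x : Fin m → N | φ.Realize (Sum.elim x (b i))} ⊂ {x | φ.Realize (Sum.elim x (b (i + 1)))}

open Pool.Agent.H62.Ex in
theorem result : ∃ (L : FirstOrder.Language.{0, 0}) (T : L.Theory), L.card ≤ aleph0 ∧
    T.IsComplete ∧ (∃ M : Theory.ModelType.{0, 0, 0} T, mk M = aleph0) ∧
    Categorical aleph0.{0} T ∧ (∀ N : Theory.ModelType.{0, 0, 0} T, ¬SOP L N) ∧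
    ∀ (N : Theory.ModelType.{0, 0, 0} T) (a : Fin 1 → N), TypeForks L ∅ a := by
  refine ⟨L0, L0.completeTheory ℕ, card0, completeTheory.isComplete L0 ℕ,
    ⟨Theory.ModelType.of _ ℕ, mk_nat⟩, cat0, fun N ⟨m, k, φ, b, hb⟩ => ?_, fun N a => ?_⟩
  · choose w w1 w2 using fun i => exists_of_ssubset (hb i)
    obtain ⟨f, v, hv⟩ := emb0 N (ι := ℕ × (Fin m ⊕ Fin k)) fun z => Sum.elim (w z.1) (b z.1) z.2
    have e1 : ∀ i, f ∘ (fun l => v (i, .inl l)) = w i := fun i => funext fun l => congrFun hv _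
    have e2 : ∀ i, f ∘ (fun l => v (i, .inr l)) = b i := fun i => funext fun l => congrFun hv _
    have tr : ∀ x i, φ.Realize (Sum.elim x fun l => v (i, .inr l)) ↔
        φ.Realize (Sum.elim (f ∘ x) (b i)) := fun x i => by
      rw [← f.map_formula, Sum.comp_elim, e2]
    have iv : ∀ g ∈ G, ∀ y : Fin k → ℕ, {x : Fin m → ℕ | φ.Realize (Sum.elim x (g ∘ y))} =
        (fun x => g.symm ∘ x) ⁻¹' {x | φ.Realize (Sum.elim x y)} := fun g hg y => by
      ext x
      rw [mem_preimage, mem_ofPred_eq, mem_ofPred_eq, ← real_inv φ hg (Sum.elim _ y), Sum.comp_elim,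
        show g ∘ g.symm ∘ x = x from funext fun i => g.apply_symm_apply _]
    refine nochain (fun y y' => {x : Fin m → ℕ | φ.Realize (Sum.elim x y)} ⊂
      {x | φ.Realize (Sum.elim x y')}) (fun g hg y y' h => ?_) (fun _ _ _ => ssubset_trans)
      (fun _ => ssubset_irrefl _) (fun i l => v (i, .inr l)) fun i => ⟨fun x hx => ?_, fun h => ?_⟩
    · rw [iv g hg, iv g hg]
      exact ⟨preimage_mono h.1, fun k => h.2
        ((g.symm.surjective.comp_left).preimage_subset_preimage_iff.1 k)⟩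
    · exact (tr _ _).2 ((hb i).1 ((tr _ _).1 hx))
    · exact w2 i (e1 i ▸ (tr _ _).1 (h ((tr _ _).2 (e1 i ▸ w1 i))))
  obtain ⟨h, h1, h2, h3, ⟨s, s1, s2, s3⟩, h4⟩ := star_facts
  obtain ⟨ψ, hψ⟩ := defn (ι := Fin 1 ⊕ Fin 2) (fun z => R M (z (.inl 0)) (z (.inr 0)) (z (.inr 1)))
    fun g hg x => ((G_emb hg).r trivial trivial trivial).1
  obtain ⟨ε, hε⟩ := defn (ι := Fin 2) (fun z => E M (z 0) (z 1))
    fun g hg x => ((G_emb hg).e trivial trivial).1
  obtain ⟨δ, hδ⟩ := defn (ι := Fin 5) (fun z => M 2 z ∧ Function.Injective z)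
    fun g hg x k => ⟨(hg _ _).1 k.1, g.injective.comp k.2⟩
  have dv : ∀ f : ℕ ↪ₑ[L0] N, Divides L0 ∅ ψ (f ∘ ![h 0, h 1]) := fun f => by
    refine ⟨fun i => f ∘ ![h 0, h (i + 1)], rfl, fun n m φ a ha i j hi hj => ?_,
      Finset.range 4, fun ⟨x, hx⟩ => ?_⟩
    · obtain ⟨g, g1, g2, g3⟩ := h4 n i j hi.injective hj.injective
      have e : ∀ i : Fin n → ℕ, Sum.elim (fun z : Fin n × Fin 2 => (f ∘ ![h 0, h (i z.1 + 1)]) z.2) a =
          f ∘ Sum.elim (fun z => ![h 0, h (i z.1 + 1)] z.2) fun l => (ha l).elim := fun i => by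
        funext z
        rcases z with z | l
        exacts [rfl, (ha l).elim]
      rw [e, e, f.map_formula, f.map_formula, ← real_inv φ g1]
      refine iff_of_eq (congrArg _ (funext fun z => ?_))
      rcases z with ⟨z, l⟩ | l
      · fin_cases l
        exacts [g2, g3 z]
      · exact (ha l).elim
    · obtain ⟨f', v, hv⟩ := emb0 N (ι := Fin 1 ⊕ Fin 5) (Sum.elim x fun j => f (h j))
      have d : δ.Realize (f' ∘ v ∘ Sum.inr) := by
        rw [show f' ∘ v ∘ Sum.inr = f ∘ fun j : Fin 5 => h j from funext fun j => congrFun hv _,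
          f.map_formula, hδ]
        exact ⟨h2, h3.comp Fin.val_injective⟩
      rw [f'.map_formula, hδ] at d
      refine Mg.ind (v (.inl 0)) trivial (v ∘ Sum.inr) (fun _ => trivial) d.1
        (d.2.comp (Fin.succ_injective _)) fun j => ?_
      have := hx j (Finset.mem_range.2 j.2)
      rw [show Sum.elim x (f ∘ ![h 0, h (j + 1)]) =
        f' ∘ Sum.elim (v ∘ Sum.inl) ![v (.inr 0), v (.inr j.succ)] from funext fun z => by
          rcases z with z | l
          · exact (congrFun hv (.inl z)).symm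
          · fin_cases l
            exacts [(congrFun hv (.inr 0)).symm, (congrFun hv (.inr j.succ)).symm],
        f'.map_formula, hψ] at this
      exact this
  obtain ⟨f, -⟩ := emb0 N a
  refine ⟨0, ⊤, Fin.elim0, fun l => l.elim0, by simp, 2, fun _ => 2, fun _ => ψ,
    ![f ∘ ![h 0, h 1], (f ∘ ![h 1, h 0])], fun j => ?_, fun x _ => ?_⟩
  · fin_cases j
    · exact dv f
    · convert dv (f.comp (aut s s1).toElementaryEmbedding) using 1
      funext l
      fin_cases l
      exacts [congrArg f s2.symm, congrArg f s3.symm]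
  · obtain ⟨f', v, hv⟩ := emb0 N (ι := Fin 1 ⊕ Fin 2) (Sum.elim x (f ∘ ![h 0, h 1]))
    have d : ε.Realize (f' ∘ v ∘ Sum.inr) := by
      rw [show f' ∘ v ∘ Sum.inr = f ∘ ![h 0, h 1] from funext fun j => congrFun hv _,
        f.map_formula, hε]
      exact h1
    rw [f'.map_formula, hε] at d
    rcases Mg.cov (v (.inl 0)) trivial _ trivial _ trivial d with k | k
    · refine ⟨0, ?_⟩
      show ψ.Realize (Sum.elim x (f ∘ ![h 0, h 1]))
      rw [← hv, f'.map_formula, hψ]
      exact k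
    · refine ⟨1, ?_⟩
      show ψ.Realize (Sum.elim x (f ∘ ![h 1, h 0]))
      rw [show Sum.elim x (f ∘ ![h 1, h 0]) =
        f' ∘ Sum.elim (v ∘ Sum.inl) ![v (.inr 1), v (.inr 0)] from funext fun z => by
          rcases z with z | l
          · exact (congrFun hv (.inl z)).symm
          · fin_cases l
            exacts [(congrFun hv (.inr 1)).symm, (congrFun hv (.inr 0)).symm],
        f'.map_formula, hψ]
      exact k

end Pool.Agent.Results.MP_4b3c04_lc.Counter
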